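import Pool.Agent.Run7.h507.KR.Defs

/-!
Project KR (helper507), piece SER, by helper431: the Taylor series on a circle.
-/

set_option autoImplicit false

open MeasureTheory Metric Set Filter Topology

namespace Pool.Agent.Run7.h431.KR

open Pool.Agent.Run7.h507.KR

theorem term_eq (R θ : ℝ) (k : ℤ) (l : ℕ) (a c : ℂ) :
    a * (c * circleMap 0 R θ ^ l) * Complex.exp (-(((k : ℝ) * θ : ℝ) * Complex.I)) =
      a * Complex.exp (-((((k - l : ℤ) : ℝ) * θ : ℝ) * Complex.I)) * (c * R ^ l) := by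
  have h1 : circleMap 0 R θ ^ l = (R : ℂ) ^ l * Complex.exp (l * (θ * Complex.I)) := by
    rw [circleMap, zero_add, mul_pow, ← Complex.exp_nat_mul]
  have h2 : Complex.exp (l * (θ * Complex.I)) *
      Complex.exp (-(((k : ℝ) * θ : ℝ) * Complex.I)) =
      Complex.exp (-((((k - l : ℤ) : ℝ) * θ : ℝ) * Complex.I)) := by
    rw [← Complex.exp_add]
    congr 1
    push_cast
    ring
  rw [h1, ← h2]
  ring

theorem key (R : ℝ) (h F : ℂ → ℂ) (c : ℕ → ℂ) (k : ℤ) (hR : 0 < R)
    (hh : ContinuousOn h (sphere 0 R))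
    (hc : ∀ z : ℂ, ‖z‖ = R → HasSum (fun n : ℕ => c n * z ^ n) (F z)) :
    HasSum (fun l : ℕ => co h R (k - l) * (c l * R ^ l)) (co (fun z => h z * F z) R k) := by
  obtain ⟨M, hM⟩ := (isCompact_sphere (0 : ℂ) R).exists_bound_of_continuousOn hh
  have hs : Summable (fun n : ℕ => ‖c n‖ * R ^ n) := by
    have := (hc R (by simp [abs_of_pos hR])).summable.norm
    simpa [norm_mul, norm_pow, abs_of_pos hR] using this
  have hcm : ∀ θ, circleMap 0 R θ ∈ sphere (0 : ℂ) R := fun θ => circleMap_mem_sphere 0 hR.le θ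
  have hnm : ∀ θ, ‖circleMap 0 R θ‖ = R := fun θ => by
    have := hcm θ
    simpa using this
  have hcont : Continuous (fun θ : ℝ => h (circleMap 0 R θ)) :=
    hh.comp_continuous (continuous_circleMap 0 R) hcm
  have hci := continuous_circleMap (0 : ℂ) R
  have hE : Continuous fun θ : ℝ => Complex.exp (-(((k : ℝ) * θ : ℝ) * Complex.I)) := by
    fun_prop
  have hEn : ∀ θ : ℝ, ‖Complex.exp (-(((k : ℝ) * θ : ℝ) * Complex.I))‖ = 1 := by
    intro θ
    rw [Complex.norm_exp]
    simp
  have H := intervalIntegral.hasSum_integral_of_dominated_convergence (μ := volume) (a := 0)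
    (b := 2 * Real.pi)
    (F := fun (n : ℕ) (θ : ℝ) => h (circleMap 0 R θ) * (c n * circleMap 0 R θ ^ n) *
      Complex.exp (-(((k : ℝ) * θ : ℝ) * Complex.I)))
    (f := fun θ => h (circleMap 0 R θ) * F (circleMap 0 R θ) *
      Complex.exp (-(((k : ℝ) * θ : ℝ) * Complex.I)))
    (fun n _ => M * (‖c n‖ * R ^ n))
    (fun n => ((hcont.mul (continuous_const.mul (hci.pow n))).mul hE).aestronglyMeasurable)
    (fun n => Eventually.of_forall fun θ _ => by
      rw [norm_mul, norm_mul, norm_mul, norm_pow, hEn, hnm, mul_one]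
      exact mul_le_mul_of_nonneg_right (hM _ (hcm θ)) (by positivity))
    (Eventually.of_forall fun θ _ => hs.mul_left M)
    (by simp)
    (Eventually.of_forall fun θ _ => ((hc _ (hnm θ)).mul_left _).mul_right _)
  have H2 := H.mul_left ((((2 * Real.pi)⁻¹ : ℝ)) : ℂ)
  unfold co
  have hf : (fun l : ℕ => ((((2 * Real.pi)⁻¹ : ℝ)) : ℂ) * (∫ θ in (0 : ℝ)..(2 * Real.pi),
      h (circleMap 0 R θ) * Complex.exp (-((((k - l : ℤ) : ℝ) * θ : ℝ) * Complex.I))) *
        (c l * R ^ l)) = fun l : ℕ => ((((2 * Real.pi)⁻¹ : ℝ)) : ℂ) *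
      ∫ θ in (0 : ℝ)..(2 * Real.pi), h (circleMap 0 R θ) * (c l * circleMap 0 R θ ^ l) *
        Complex.exp (-(((k : ℝ) * θ : ℝ) * Complex.I)) := by
    funext l
    simp only [term_eq]
    rw [intervalIntegral.integral_mul_const, mul_assoc]
  rw [hf]
  exact H2

theorem co_one (R : ℝ) (j : ℤ) : co (fun _ => 1) R j = if j = 0 then 1 else 0 := by
  have hpi : ((2 * Real.pi : ℝ) : ℂ) ≠ 0 := by
    exact_mod_cast Real.two_pi_pos.ne'
  unfold co
  split_ifs with hj
  · subst hj
    have hpi2 : (Real.pi : ℂ) ≠ 0 := by exact_mod_cast Real.pi_ne_zero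
    simp
    field_simp
  · have h1 : ∀ θ : ℝ, (1 : ℂ) * Complex.exp (-(((j : ℝ) * θ : ℝ) * Complex.I)) =
        Complex.exp ((-(j * Complex.I)) * θ) := by
      intro θ
      rw [one_mul]
      congr 1
      push_cast
      ring
    simp only [h1]
    have hc : (-(j * Complex.I) : ℂ) ≠ 0 := by
      simpa using hj
    rw [integral_exp_mul_complex hc]
    have h2 : Complex.exp (-(j * Complex.I) * ((2 * Real.pi : ℝ) : ℂ)) = 1 := by
      have := Complex.exp_int_mul_two_pi_mul_I (-j)
      rw [← this]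
      congr 1
      push_cast
      ring
    rw [h2]
    simp

theorem t_SER : S_SER := by
  intro R h F k hR hR1 hh hF
  have hc : ∀ z : ℂ, ‖z‖ = R →
      HasSum (fun n : ℕ => ((n.factorial : ℂ)⁻¹ * iteratedDeriv n F 0) * z ^ n) (F z) := by
    intro z hz
    have := Complex.hasSum_taylorSeries_on_ball (c := 0) (r := 1) (f := F) hF
      (z := z) (by simpa [hz] using hR1)
    have hf : (fun n : ℕ => ((n.factorial : ℂ)⁻¹ * iteratedDeriv n F 0) * z ^ n) =
        fun n : ℕ => (n.factorial : ℂ)⁻¹ • (z - 0) ^ n • iteratedDeriv n F 0 := by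
      funext n
      simp only [smul_eq_mul, sub_zero]
      ring
    rw [hf]
    exact this
  have e : ∀ l : ℕ, co F R l = ((l.factorial : ℂ)⁻¹ * iteratedDeriv l F 0) * R ^ l := by
    intro l
    have h1 := key R (fun _ => 1) F _ l hR continuousOn_const hc
    have h2 := hasSum_single (f := fun n : ℕ => co (fun _ => 1) R ((l : ℤ) - n) *
      (((n.factorial : ℂ)⁻¹ * iteratedDeriv n F 0) * (R : ℂ) ^ n)) l (by
        intro n hn
        rw [co_one, if_neg (by omega), zero_mul])
    have h3 := h1.unique h2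
    simp only [one_mul, sub_self, co_one, if_true] at h3
    exact h3
  simp only [e]
  exact key R h F _ k hR hh hc

end Pool.Agent.Run7.h431.KR
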